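import Mathlib

/-!
# Pinwheel scheduling with durations
-/

set_option autoImplicit false

namespace Q229.PW

/-- An instance: the list of the jobs, each given by its frequency and its duration. -/
abbrev Inst : Type := List (ℕ × ℕ)

/-- There is at least one job, frequencies and durations are positive, and the jobs are ordered by
their frequencies. -/
def Valid (V : Inst) : Prop :=
  V ≠ [] ∧ (∀ x ∈ V, 0 < x.1 ∧ 0 < x.2) ∧ V.Pairwise fun x y => x.1 ≤ y.1

/-- Every frequency divides the next one. -/
def FrequencyDivisibility (V : Inst) : Prop := V.IsChain fun x y => x.1 ∣ y.1

/-- The density of the instance. -/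
def density (V : Inst) : ℚ := (V.map fun x => (x.2 : ℚ) / (x.1 : ℚ)).sum

/-- There is a schedule `S` in which every job occurs infinitely often, and the total duration of
the positions after one occurrence of a job up to (and including) its next occurrence is at most
the frequency of the job. -/
def Feasible (V : Inst) : Prop :=
  ∃ S : ℕ → Fin V.length, ∀ i : Fin V.length, (S ⁻¹' {i}).Infinite ∧
    ∀ a b : ℕ, a < b → S a = i → S b = i → (∀ t, a < t → t < b → S t ≠ i) →
      ∑ t ∈ Finset.Ioc a b, (V.get (S t)).2 ≤ (V.get i).1

/-- The decision problem: feasibility of the instances with frequency divisibility and density at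
most `α`. -/
def LowDensity (α : ℚ) (V : Inst) : Prop :=
  Valid V ∧ FrequencyDivisibility V ∧ density V ≤ α ∧ Feasible V

end Q229.PW
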