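import Pool.Agent.Q229.PW.Pack

/-!
# Residue classes for all jobs
-/

set_option autoImplicit false

namespace Q229.PW

open Finset

theorem cast_term {m w : ℕ → ℕ} {i k : ℕ} (h : w i ≠ 0 → m i ∣ m k) (hm : w i ≠ 0 → 0 < m i) :
    ((w i * (m k / m i) : ℕ) : ℚ) = (m k : ℚ) * ((w i : ℚ) / (m i : ℚ)) := by
  by_cases hw : w i = 0
  · rw [hw]
    simp
  · rw [Nat.cast_mul, Nat.cast_div (h hw) (by have := hm hw; positivity)]
    ring

theorem assign (n F : ℕ) (m p : ℕ → ℕ) (hF : 0 < F) (hm : ∀ i < n, 0 < m i)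
    (hp : ∀ i < n, 0 < p i) (hdiv : ∀ i j, i ≤ j → j < n → m i ∣ m j)
    (hden : 10 * ∑ i ∈ range n, (p i : ℚ) / (m i : ℚ) ≤ F)
    (hcond : ∀ k < n, m k ≠ 1 → (∑ i ∈ range n, if m i = 1 then p i else 0) + p k ≤ F) :
    ∃ r : ℕ → ℕ, (∀ i < n, r i < m i) ∧ ∀ t, load m p r n t ≤ F := by
  classical
  obtain ⟨P, hP⟩ : ∃ P, P = ∑ i ∈ range n, if m i = 1 then p i else 0 := ⟨_, rfl⟩
  obtain ⟨S, hS⟩ : ∃ S : ℚ, S = ∑ i ∈ range n, if m i = 1 then 0 else (p i : ℚ) / (m i : ℚ) :=
    ⟨_, rfl⟩
  rw [← hP] at hcond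
  have hPS : (P : ℚ) + S = ∑ i ∈ range n, (p i : ℚ) / (m i : ℚ) := by
    rw [hP, hS, Nat.cast_sum, ← sum_add_distrib]
    refine sum_congr rfl fun i _ => ?_
    split_ifs with h
    · rw [h]
      simp
    · simp
  rw [← hPS] at hden
  have hS0 : 0 ≤ S := by
    rw [hS]
    refine sum_nonneg fun i _ => ?_
    split_ifs <;> positivity
  have hPF : P ≤ F := by
    have : (P : ℚ) ≤ F := by
      have : (0 : ℚ) ≤ P := Nat.cast_nonneg _
      linarith
    exact_mod_cast this
  by_cases hall : ∀ i < n, m i = 1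
  · refine ⟨fun _ => 0, fun i hi => hm i hi, fun t => ?_⟩
    refine le_trans (le_of_eq ?_) hPF
    rw [hP]
    unfold load
    refine sum_congr rfl fun i hi => ?_
    rw [hall i (mem_range.1 hi)]
    simp [Nat.mod_one]
  push Not at hall
  have hall' : ∃ i, i < n ∧ m i ≠ 1 := hall
  obtain ⟨i0, ⟨hi0, hi0'⟩, hmin⟩ : ∃ i0, (i0 < n ∧ m i0 ≠ 1) ∧ ∀ i < n, m i ≠ 1 → i0 ≤ i :=
    ⟨Nat.find hall', Nat.find_spec hall', fun i hi h => Nat.find_min' hall' ⟨hi, h⟩⟩
  obtain ⟨M, hMd⟩ : ∃ M, M = m i0 := ⟨_, rfl⟩
  have hM2 : 2 ≤ M := by have := hm i0 hi0; omega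
  have hMm : ∀ i < n, m i ≠ 1 → M ∣ m i := fun i hi h => hMd ▸ hdiv i0 i (hmin i hi h) hi
  obtain ⟨h, hh⟩ : ∃ h, h = M / 2 := ⟨_, rfl⟩
  have hh1 : M ≤ 3 * h := by omega
  have hh2 : M ≤ 2 * (M - h) := by omega
  have hh3 : h ≤ M := by omega
  obtain ⟨C, hC⟩ : ∃ C, C = F - P := ⟨_, rfl⟩
  have hCq : (C : ℚ) = F - P := by rw [hC, Nat.cast_sub hPF]
  have hFq : (0 : ℚ) < F := by exact_mod_cast hF
  have hPq : (0 : ℚ) ≤ P := Nat.cast_nonneg _
  have hC9 : 9 * (F : ℚ) ≤ 10 * C := by rw [hCq]; linarith
  have hSF : 10 * S ≤ F := by linarith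
  have hCpos : (0 : ℚ) < C := by linarith
  have hpC : ∀ k < n, m k ≠ 1 → p k ≤ C := fun k hk h1 => by have := hcond k hk h1; omega
  -- the small jobs
  let ws : ℕ → ℕ := fun i => if m i ≠ 1 ∧ 2 * p i ≤ C then p i else 0
  let wb : ℕ → ℕ := fun i => if m i ≠ 1 ∧ C < 2 * p i then 1 else 0
  have hws : ∀ i, ws i ≠ 0 → m i ≠ 1 ∧ 2 * p i ≤ C := by
    intro i h1
    by_contra h2
    exact h1 (if_neg h2)
  have hwb : ∀ i, wb i ≠ 0 → m i ≠ 1 ∧ C < 2 * p i := by
    intro i h1
    by_contra h2
    exact h1 (if_neg h2)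
  have hws' : ∀ i, m i ≠ 1 ∧ 2 * p i ≤ C → ws i = p i := fun i h1 => if_pos h1
  have hwb' : ∀ i, m i ≠ 1 ∧ C < 2 * p i → wb i = 1 := fun i h1 => if_pos h1
  obtain ⟨r1, hr1, hL1⟩ := pack m ws M C h (fun c => c < h) (by omega)
    (by
      rw [← Finset.card_filter]
      have : filter (fun c => c < h) (range M) = range h := by
        ext c
        simp only [mem_filter, mem_range]
        omega
      rw [this, card_range]) n
    (fun i j hij hj _ _ => hdiv i j hij hj) (fun i hi hw => hMm i hi (hws i hw).1)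
    (fun i hi _ => hm i hi)
    (by
      intro k hk hw
      obtain ⟨hk1, hk2⟩ := hws k hw
      rw [hws' k ⟨hk1, hk2⟩]
      have hq : ((∑ i ∈ range k, ws i * (m k / m i) : ℕ) : ℚ) <
          (((C + 1 - p k) * (h * (m k / M)) : ℕ) : ℚ) := by
        have e1 : ((∑ i ∈ range k, ws i * (m k / m i) : ℕ) : ℚ) ≤ (m k : ℚ) * S := by
          rw [Nat.cast_sum, hS, mul_sum]
          have : ∑ i ∈ range k, ((ws i * (m k / m i) : ℕ) : ℚ) ≤
              ∑ i ∈ range k, (m k : ℚ) * (if m i = 1 then 0 else (p i : ℚ) / (m i : ℚ)) := by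
            refine sum_le_sum fun i hi => ?_
            have hi' := mem_range.1 hi
            rw [cast_term (fun _ => hdiv i k (by omega) hk) (fun _ => hm i (by omega))]
            refine mul_le_mul_of_nonneg_left ?_ (Nat.cast_nonneg _)
            by_cases h1 : m i = 1
            · simp [ws, h1]
            · simp only [h1, if_false]
              by_cases h2 : 2 * p i ≤ C
              · rw [hws' i ⟨h1, h2⟩]
              · have : ws i = 0 := if_neg (fun h3 => h2 h3.2)
                rw [this]
                simp only [Nat.cast_zero, zero_div]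
                positivity
          refine this.trans (sum_le_sum_of_subset_of_nonneg ?_ ?_)
          · exact fun i hi => mem_range.2 (by have := mem_range.1 hi; omega)
          · intro i _ _
            split_ifs <;> positivity
        have hmk : (0 : ℚ) < m k := by exact_mod_cast hm k hk
        have e2 : (C : ℚ) / 2 < ((C + 1 - p k : ℕ) : ℚ) := by
          have : C < 2 * (C + 1 - p k) := by omega
          have h3 : ((C : ℕ) : ℚ) < ((2 * (C + 1 - p k) : ℕ) : ℚ) := by exact_mod_cast this
          rw [Nat.cast_mul] at h3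
          push_cast at h3
          linarith
        have e3 : (m k : ℚ) / 3 ≤ ((h * (m k / M) : ℕ) : ℚ) := by
          obtain ⟨q, hq⟩ := hMm k hk hk1
          rw [hq, Nat.mul_div_cancel_left _ (by omega)]
          have : M * q ≤ 3 * (h * q) := by
            calc M * q ≤ (3 * h) * q := Nat.mul_le_mul_right _ hh1
              _ = 3 * (h * q) := by ring
          have h4 : ((M * q : ℕ) : ℚ) ≤ ((3 * (h * q) : ℕ) : ℚ) := by exact_mod_cast this
          rw [Nat.cast_mul 3] at h4
          have : ((3 : ℕ) : ℚ) = 3 := rfl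
          rw [this] at h4
          linarith
        have e4 : (C : ℚ) / 2 * ((m k : ℚ) / 3) <
            ((C + 1 - p k : ℕ) : ℚ) * ((h * (m k / M) : ℕ) : ℚ) := by
          calc (C : ℚ) / 2 * ((m k : ℚ) / 3) < ((C + 1 - p k : ℕ) : ℚ) * ((m k : ℚ) / 3) :=
                mul_lt_mul_of_pos_right e2 (by positivity)
            _ ≤ _ := mul_le_mul_of_nonneg_left e3 (Nat.cast_nonneg _)
        have e5 : (m k : ℚ) * S ≤ (C : ℚ) / 2 * ((m k : ℚ) / 3) := by
          have : S ≤ (C : ℚ) / 6 := by linarith
          calc (m k : ℚ) * S ≤ (m k : ℚ) * ((C : ℚ) / 6) :=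
                mul_le_mul_of_nonneg_left this hmk.le
            _ = _ := by ring
        rw [Nat.cast_mul (C + 1 - p k)]
        linarith
      exact_mod_cast hq) n le_rfl
  obtain ⟨r2, hr2, hL2⟩ := pack m wb M 1 (M - h) (fun c => h ≤ c) (by omega)
    (by
      rw [← Finset.card_filter]
      have : filter (fun c => h ≤ c) (range M) = Finset.Ico h M := by
        ext c
        simp only [mem_filter, mem_range, Finset.mem_Ico]
        omega
      rw [this, Nat.card_Ico]) n
    (fun i j hij hj _ _ => hdiv i j hij hj) (fun i hi hw => hMm i hi (hwb i hw).1)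
    (fun i hi _ => hm i hi)
    (by
      intro k hk hw
      obtain ⟨hk1, hk2⟩ := hwb k hw
      rw [hwb' k ⟨hk1, hk2⟩]
      have hq : ((∑ i ∈ range k, wb i * (m k / m i) : ℕ) : ℚ) <
          (((1 + 1 - 1) * ((M - h) * (m k / M)) : ℕ) : ℚ) := by
        have hmk : (0 : ℚ) < m k := by exact_mod_cast hm k hk
        have e1 : ((∑ i ∈ range k, wb i * (m k / m i) : ℕ) : ℚ) ≤ (m k : ℚ) * (2 / C * S) := by
          rw [Nat.cast_sum, hS, mul_sum, mul_sum]
          have : ∑ i ∈ range k, ((wb i * (m k / m i) : ℕ) : ℚ) ≤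
              ∑ i ∈ range k, (m k : ℚ) * (2 / C * (if m i = 1 then 0 else
                (p i : ℚ) / (m i : ℚ))) := by
            refine sum_le_sum fun i hi => ?_
            have hi' := mem_range.1 hi
            rw [cast_term (fun _ => hdiv i k (by omega) hk) (fun _ => hm i (by omega))]
            refine mul_le_mul_of_nonneg_left ?_ (Nat.cast_nonneg _)
            by_cases h1 : m i = 1
            · simp [wb, h1]
            · simp only [h1, if_false]
              by_cases h2 : C < 2 * p i
              · rw [hwb' i ⟨h1, h2⟩]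
                have hmi : (0 : ℚ) < m i := by exact_mod_cast hm i (by omega)
                have h3 : (C : ℚ) < 2 * p i := by exact_mod_cast h2
                rw [← mul_div_assoc]
                refine div_le_div_of_nonneg_right ?_ hmi.le
                rw [Nat.cast_one, div_mul_eq_mul_div, le_div_iff₀ hCpos]
                linarith
              · have : wb i = 0 := if_neg (fun h3 => h2 h3.2)
                rw [this]
                simp only [Nat.cast_zero, zero_div]
                positivity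
          rw [← mul_sum, ← mul_sum] at this
          rw [← mul_sum, ← mul_sum]
          refine this.trans ?_
          refine mul_le_mul_of_nonneg_left ?_ hmk.le
          refine mul_le_mul_of_nonneg_left ?_ (by positivity)
          refine sum_le_sum_of_subset_of_nonneg ?_ ?_
          · exact fun i hi => mem_range.2 (by have := mem_range.1 hi; omega)
          · intro i _ _
            split_ifs <;> positivity
        have e3 : (m k : ℚ) / 2 ≤ (((M - h) * (m k / M) : ℕ) : ℚ) := by
          obtain ⟨q, hq⟩ := hMm k hk hk1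
          rw [hq, Nat.mul_div_cancel_left _ (by omega)]
          have : M * q ≤ 2 * ((M - h) * q) := by
            calc M * q ≤ (2 * (M - h)) * q := Nat.mul_le_mul_right _ hh2
              _ = 2 * ((M - h) * q) := by ring
          have h4 : ((M * q : ℕ) : ℚ) ≤ ((2 * ((M - h) * q) : ℕ) : ℚ) := by exact_mod_cast this
          rw [Nat.cast_mul 2] at h4
          have : ((2 : ℕ) : ℚ) = 2 := rfl
          rw [this] at h4
          linarith
        have e5 : 2 / (C : ℚ) * S < 1 / 2 := by
          rw [div_mul_eq_mul_div, div_lt_iff₀ hCpos]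
          linarith
        have e6 : (m k : ℚ) * (2 / C * S) < (m k : ℚ) / 2 := by
          calc (m k : ℚ) * (2 / C * S) < (m k : ℚ) * (1 / 2) := mul_lt_mul_of_pos_left e5 hmk
            _ = _ := by ring
        have e7 : (1 + 1 - 1) * ((M - h) * (m k / M)) = (M - h) * (m k / M) := by simp
        rw [e7]
        linarith
      exact_mod_cast hq) n le_rfl
  refine ⟨fun i => if m i = 1 then 0 else if 2 * p i ≤ C then r1 i else r2 i, ?_, ?_⟩
  · intro i hi
    dsimp only
    split_ifs with h1 h2
    · exact hm i hi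
    · refine (hr1 i hi ?_).1
      rw [hws' i ⟨h1, h2⟩]
      exact (hp i hi).ne'
    · refine (hr2 i hi ?_).1
      rw [hwb' i ⟨h1, by omega⟩]
      exact one_ne_zero
  · intro t
    have h1 : load m p (fun i => if m i = 1 then 0 else if 2 * p i ≤ C then r1 i else r2 i) n t ≤
        P + (∑ i ∈ range n, (if m i ≠ 1 ∧ 2 * p i ≤ C ∧ t % m i = r1 i then p i else 0) +
          ∑ i ∈ range n, (if m i ≠ 1 ∧ C < 2 * p i ∧ t % m i = r2 i then p i else 0)) := by
      rw [hP, ← sum_add_distrib, ← sum_add_distrib]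
      unfold load
      refine sum_le_sum fun i _ => ?_
      by_cases a1 : m i = 1
      · simp only [a1, if_true]
        split_ifs <;> omega
      · by_cases a2 : 2 * p i ≤ C
        · simp only [a1, a2, if_false, if_true, ne_eq, not_false_eq_true, true_and]
          split_ifs <;> omega
        · have a3 : C < 2 * p i := by omega
          simp only [a1, a2, a3, if_false, ne_eq, not_false_eq_true, true_and, false_and,
            and_false]
          split_ifs <;> omega
    refine h1.trans ?_
    have hPC : P + C = F := by omega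
    rw [← hPC]
    refine Nat.add_le_add_left ?_ _
    by_cases ht : t % M < h
    · have z2 : ∑ i ∈ range n, (if m i ≠ 1 ∧ C < 2 * p i ∧ t % m i = r2 i then p i else 0) = 0 := by
        refine sum_eq_zero fun i hi => if_neg ?_
        rintro ⟨a1, a2, a3⟩
        have hi' := mem_range.1 hi
        have a4 := (hr2 i hi' (by rw [hwb' i ⟨a1, a2⟩]; exact one_ne_zero)).2
        rw [← a3, Nat.mod_mod_of_dvd _ (hMm i hi' a1)] at a4
        omega
      rw [z2, Nat.add_zero]
      refine le_trans (sum_le_sum fun i hi => ?_) (hL1 t)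
      have hi' := mem_range.1 hi
      by_cases a1 : m i ≠ 1 ∧ 2 * p i ≤ C
      · rw [hws' i a1]
        split_ifs with b1 b2 b3
        · exact le_rfl
        · exact absurd b1.2.2 b2
        · exact Nat.zero_le _
        · exact Nat.zero_le _
      · rw [if_neg (fun b => a1 ⟨b.1, b.2.1⟩)]
        exact Nat.zero_le _
    · have z1 : ∑ i ∈ range n, (if m i ≠ 1 ∧ 2 * p i ≤ C ∧ t % m i = r1 i then p i else 0) = 0 := by
        refine sum_eq_zero fun i hi => if_neg ?_
        rintro ⟨a1, a2, a3⟩
        have hi' := mem_range.1 hi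
        have a4 := (hr1 i hi' (by rw [hws' i ⟨a1, a2⟩]; exact (hp i hi').ne')).2
        rw [← a3, Nat.mod_mod_of_dvd _ (hMm i hi' a1)] at a4
        omega
      rw [z1, Nat.zero_add]
      have h2 : ∑ i ∈ range n, (if m i ≠ 1 ∧ C < 2 * p i ∧ t % m i = r2 i then p i else 0) ≤
          C * load m wb r2 n t := by
        unfold load
        rw [mul_sum]
        refine sum_le_sum fun i hi => ?_
        have hi' := mem_range.1 hi
        by_cases a1 : m i ≠ 1 ∧ C < 2 * p i
        · rw [hwb' i a1]
          by_cases a2 : t % m i = r2 i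
          · rw [if_pos ⟨a1.1, a1.2, a2⟩, if_pos a2]
            have := hpC i hi' a1.1
            omega
          · rw [if_neg (fun b => a2 b.2.2)]
            exact Nat.zero_le _
        · rw [if_neg (fun b => a1 ⟨b.1, b.2.1⟩)]
          exact Nat.zero_le _
      calc _ ≤ C * load m wb r2 n t := h2
        _ ≤ C * 1 := Nat.mul_le_mul_left _ (hL2 t)
        _ = C := Nat.mul_one _

end Q229.PW
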