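import Pool.Agent.Q229.PW.Main
import Pool.Agent.NPC.Dec
import Pool.Agent.H671R2.PolyAuto

/-!
# The polynomial-time test
-/

set_option autoImplicit false

namespace Q229.PW

open Finset Pool.Agent Pool.Agent.NPC

/-- the last frequency -/
def last (V : Inst) : ℕ := (V.getD (V.length - 1) (0, 0)).1

/-- the density, scaled -/
def dens (V : Inst) : ℕ := (V.map fun x => x.2 * (last V / x.1)).sum

/-- the test -/
def test (V : Inst) : Bool :=
  decide (0 < V.length) && ((V.all fun x => decide (0 < x.1) && decide (0 < x.2)) &&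
    (((List.range V.length).all fun i => decide (V.length ≤ i + 1) ||
      decide ((V.getD (i + 1) (0, 0)).1 % (V.getD i (0, 0)).1 = 0)) &&
    (decide (10 * dens V ≤ last V) &&
      V.all fun x => decide (x.1 = F V) || decide (P V + x.2 ≤ F V))))

@[fun_prop]
theorem poly_sum' {α : Type} [TEnc α] {l : α → List ℕ} (hl : Poly l) :
    Poly (fun a => (l a).sum) := Poly.sum hl

@[fun_prop]
theorem poly_range' {α β : Type} [TEnc α] [TEnc β] {l : α → List β} (hl : Poly l) :
    Poly (fun a => List.range ((l a).length)) :=
  (UPoly.length hl).range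

@[fun_prop]
theorem poly_F {α : Type} [TEnc α] {V : α → Inst} (hV : Poly V) : Poly (fun a => F (V a)) := by
  unfold F
  exact Poly.fst (Poly.head?_getD hV (0, 0))

@[fun_prop]
theorem poly_P {α : Type} [TEnc α] {V : α → Inst} (hV : Poly V) : Poly (fun a => P (V a)) := by
  unfold P
  fun_prop

@[fun_prop]
theorem poly_last {α : Type} [TEnc α] {V : α → Inst} (hV : Poly V) :
    Poly (fun a => last (V a)) := by
  unfold last
  fun_prop

@[fun_prop]
theorem poly_dens {α : Type} [TEnc α] {V : α → Inst} (hV : Poly V) :
    Poly (fun a => dens (V a)) := by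
  unfold dens
  fun_prop

theorem poly_test : Poly test := by
  unfold test
  fun_prop

theorem density_iff {V : Inst} (hV : V ≠ []) (hpos : ∀ x ∈ V, 0 < x.1 ∧ 0 < x.2)
    (hd : FrequencyDivisibility V) : density V ≤ 1 / 10 ↔ 10 * dens V ≤ last V := by
  have hn : 0 < V.length := List.length_pos_iff.2 hV
  have hpos' : ∀ i < V.length, 0 < (V.getD i (0, 0)).1 := by
    intro i hi
    rw [List.getD_eq_getElem _ _ hi]
    exact (hpos _ (List.getElem_mem hi)).1
  have h0 : 0 < last V := hpos' _ (by omega)
  have h1 : ((dens V : ℕ) : ℚ) = (last V : ℚ) * density V := by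
    unfold dens density
    rw [sum_rg, sum_rg, mul_sum, Nat.cast_sum]
    refine sum_congr rfl fun i hi => ?_
    have hi' := mem_range.1 hi
    have e1 : ((V.getD i (0, 0)).1 : ℚ) ≠ 0 := by exact_mod_cast (hpos' i hi').ne'
    have e2 : (V.getD i (0, 0)).1 ∣ last V := dvd_of_le hd (by omega) (by omega)
    rw [Nat.cast_mul, Nat.cast_div e2 e1]
    ring
  have h2 : (0 : ℚ) < last V := by exact_mod_cast h0
  constructor
  · intro h
    have : ((10 * dens V : ℕ) : ℚ) ≤ (last V : ℚ) := by
      rw [Nat.cast_mul, h1]
      have : ((10 : ℕ) : ℚ) = 10 := rfl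
      rw [this]
      nlinarith
    exact_mod_cast this
  · intro h
    have h3 : ((10 * dens V : ℕ) : ℚ) ≤ (last V : ℚ) := by exact_mod_cast h
    rw [Nat.cast_mul, h1] at h3
    have h4 : ((10 : ℕ) : ℚ) = 10 := rfl
    rw [h4] at h3
    by_contra hcon
    push Not at hcon
    nlinarith

theorem test_iff (V : Inst) : LowDensity (1 / 10) V ↔ test V = true := by
  unfold test LowDensity
  simp only [Bool.and_eq_true, List.all_eq_true, decide_eq_true_eq, Bool.or_eq_true,
    List.mem_range]
  constructor
  · rintro ⟨hV, hd, hα, hf⟩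
    refine ⟨List.length_pos_iff.2 hV.1, hV.2.1, ?_, (density_iff hV.1 hV.2.1 hd).1 hα, ?_⟩
    · intro i hi
      rcases Nat.lt_or_ge (i + 1) V.length with h | h
      · right
        exact Nat.mod_eq_zero_of_dvd (dvd_of_le hd (Nat.le_succ i) h)
      · exact Or.inl h
    · intro x hx
      by_cases h : x.1 = F V
      · exact Or.inl h
      · exact Or.inr (cond_of_feasible hV hf x hx h)
  · rintro ⟨hn, hpos, hch, hden, hc⟩
    have hV : V ≠ [] := List.length_pos_iff.1 hn
    have hd : FrequencyDivisibility V := by
      unfold FrequencyDivisibility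
      rw [List.isChain_iff_getElem]
      intro i hi
      rcases hch i (by omega) with h | h
      · omega
      · rw [List.getD_eq_getElem _ _ hi, List.getD_eq_getElem _ _ (by omega : i < V.length)] at h
        exact Nat.dvd_of_mod_eq_zero h
    have hval : Valid V := by
      refine ⟨hV, hpos, ?_⟩
      rw [List.pairwise_iff_getElem]
      intro i j hi hj hij
      have := dvd_of_le hd hij.le hj
      rw [List.getD_eq_getElem _ _ hi, List.getD_eq_getElem _ _ hj] at this
      exact Nat.le_of_dvd (hpos _ (List.getElem_mem hj)).1 this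
    have hα := (density_iff hV hpos hd).2 hden
    refine ⟨hval, hd, hα, feasible_of_cond hval hd hα ?_⟩
    intro x hx h
    rcases hc x hx with h' | h'
    · exact absurd h' h
    · exact h'

theorem inP : InPP (LowDensity (1 / 10)) := inPP_of poly_test test_iff

end Q229.PW
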