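import Pool.Agent.Q229.PW.Pack

/-!
# From residue classes to a schedule
-/

set_option autoImplicit false

namespace Q229.PW

open Finset

theorem exists_schedule {n F : ℕ} {m p r : ℕ → ℕ} (hn : 0 < n) (hm0 : m 0 = 1)
    (hm : ∀ i < n, 0 < m i) (hdiv : ∀ i j, i ≤ j → j < n → m i ∣ m j)
    (hr : ∀ i < n, r i < m i) (hL : ∀ t, load m p r n t ≤ F) :
    ∃ S : ℕ → ℕ, (∀ t, S t < n) ∧ ∀ i < n, (∀ K, ∃ k, K ≤ k ∧ S k = i) ∧
      ∀ a b, a < b → S a = i → S b = i → (∀ t, a < t → t < b → S t ≠ i) →
        ∑ t ∈ Finset.Ioc a b, p (S t) ≤ m i * F := by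
  classical
  let pr : ℕ → Prop := fun c => (c / n) % m (c % n) = r (c % n)
  have hpr : ∀ s x, x < n → (pr (s * n + x) ↔ s % m x = r x) := by
    intro s x hx
    have h1 : (s * n + x) / n = s := by
      rw [Nat.add_comm, Nat.add_mul_div_right _ _ hn, Nat.div_eq_of_lt hx, Nat.zero_add]
    have h2 : (s * n + x) % n = x := by
      rw [Nat.mul_comm, Nat.mul_add_mod, Nat.mod_eq_of_lt hx]
    simp only [pr, h1, h2]
  have hmodn : ∀ s x, x < n → (s * n + x) % n = x := by
    intro s x hx
    rw [Nat.mul_comm, Nat.mul_add_mod, Nat.mod_eq_of_lt hx]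
  have hr0 : r 0 = 0 := by
    have := hr 0 hn
    omega
  have hinf : {c | pr c}.Infinite := by
    refine Set.infinite_of_forall_exists_gt fun a => ⟨(a + 1) * n + 0, ?_, ?_⟩
    · exact (hpr _ 0 hn).2 (by rw [hm0, hr0, Nat.mod_one])
    · nlinarith
  have hmono : StrictMono (Nat.nth pr) := Nat.nth_strictMono hinf
  have hmem : ∀ k, pr (Nat.nth pr k) := fun k => Nat.nth_mem_of_infinite hinf k
  refine ⟨fun k => Nat.nth pr k % n, fun k => Nat.mod_lt _ hn, fun i hi => ⟨fun K => ?_, ?_⟩⟩
  · -- there are infinitely many occurrences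
    have hc : pr ((K + 1) * m i * n + 0 * n + (r i * n + i)) := by
      have : (K + 1) * m i * n + 0 * n + (r i * n + i) = ((K + 1) * m i + r i) * n + i := by ring
      rw [this, hpr _ _ hi, Nat.mul_comm, Nat.mul_add_mod, Nat.mod_eq_of_lt (hr i hi)]
    have hc2 : (K + 1) * m i * n + 0 * n + (r i * n + i) = ((K + 1) * m i + r i) * n + i := by ring
    rw [hc2] at hc
    refine ⟨Nat.count pr (((K + 1) * m i + r i) * n + i), ?_, ?_⟩
    · by_contra hcon
      push Not at hcon
      -- then the code is at most nth K
      have h1 := hmono hcon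
      rw [Nat.nth_count hc] at h1
      have h2 : Nat.count pr (((K + 1) * m i + r i) * n + i) < K := hcon
      -- the multiples of n below the code are K + 1 many members
      have h3 : (image (fun s => s * n + 0) (range (K + 1))).card ≤
          Nat.count pr (((K + 1) * m i + r i) * n + i) := by
        rw [Nat.count_eq_card_filter_range]
        refine card_le_card fun c hc' => ?_
        rw [mem_image] at hc'
        obtain ⟨s, hs, rfl⟩ := hc'
        rw [mem_range] at hs
        rw [mem_filter, mem_range]
        refine ⟨?_, (hpr s 0 hn).2 (by rw [hm0, hr0, Nat.mod_one])⟩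
        have h4 : s + 1 ≤ (K + 1) * m i := by
          have := hm i hi
          nlinarith
        nlinarith
      rw [card_image_of_injective, card_range] at h3
      · omega
      · intro s s' hss
        simp only [Nat.add_zero] at hss
        exact Nat.eq_of_mul_eq_mul_right hn hss
    · change Nat.nth pr (Nat.count pr (((K + 1) * m i + r i) * n + i)) % n = i
      rw [Nat.nth_count hc, hmodn _ _ hi]
  · intro a b hab ha hb hno
    obtain ⟨t, ht⟩ : ∃ t, Nat.nth pr a = t * n + i :=
      ⟨Nat.nth pr a / n, by
        have := Nat.div_add_mod (Nat.nth pr a) n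
        have h1 : Nat.nth pr a % n = i := ha
        rw [h1] at this
        rw [Nat.mul_comm] at this
        exact this.symm⟩
    obtain ⟨t', ht'⟩ : ∃ t, Nat.nth pr b = t * n + i :=
      ⟨Nat.nth pr b / n, by
        have := Nat.div_add_mod (Nat.nth pr b) n
        have h1 : Nat.nth pr b % n = i := hb
        rw [h1] at this
        rw [Nat.mul_comm] at this
        exact this.symm⟩
    have hAB := hmono hab
    rw [ht, ht'] at hAB
    have htt : t < t' := by
      by_contra h1
      push Not at h1
      have := Nat.mul_le_mul_right n h1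
      omega
    have e1 : t % m i = r i := (hpr t i hi).1 (ht ▸ hmem a)
    have e2 : t' % m i = r i := (hpr t' i hi).1 (ht' ▸ hmem b)
    have hdd : m i ∣ t' - t := (Nat.modEq_iff_dvd' htt.le).1 (e1.trans e2.symm)
    have hle : t' ≤ t + m i := by
      by_contra hcon
      push Not at hcon
      have hc : pr ((t + m i) * n + i) := (hpr _ _ hi).2 (by rw [Nat.add_mod_right]; exact e1)
      have h1 : a < Nat.count pr ((t + m i) * n + i) := by
        rw [← hmono.lt_iff_lt, Nat.nth_count hc, ht]
        have := hm i hi
        nlinarith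
      have h2 : Nat.count pr ((t + m i) * n + i) < b := by
        rw [← hmono.lt_iff_lt, Nat.nth_count hc, ht']
        nlinarith
      refine hno _ h1 h2 ?_
      change Nat.nth pr (Nat.count pr ((t + m i) * n + i)) % n = i
      rw [Nat.nth_count hc, hmodn _ _ hi]
    -- the sum in terms of codes
    let g : ℕ → ℕ := fun c => if pr c then p (c % n) else 0
    have hg : ∀ s x, x < n → g (s * n + x) = if s % m x = r x then p x else 0 := by
      intro s x hx
      simp only [g, hpr s x hx, hmodn s x hx]
    have hsum : ∑ k ∈ Finset.Ioc a b, p (Nat.nth pr k % n) =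
        ∑ c ∈ Finset.Ioc (t * n + i) (t' * n + i), g c := by
      have h1 : filter pr (Finset.Ioc (t * n + i) (t' * n + i)) =
          image (Nat.nth pr) (Finset.Ioc a b) := by
        ext c
        rw [mem_filter, mem_image]
        simp only [Finset.mem_Ioc]
        constructor
        · rintro ⟨⟨h1, h2⟩, h3⟩
          refine ⟨Nat.count pr c, ⟨?_, ?_⟩, Nat.nth_count h3⟩
          · rw [← hmono.lt_iff_lt, Nat.nth_count h3, ht]
            exact h1
          · rw [← hmono.le_iff_le, Nat.nth_count h3, ht']
            exact h2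
        · rintro ⟨k, ⟨h1, h2⟩, rfl⟩
          refine ⟨⟨?_, ?_⟩, hmem k⟩
          · rw [← ht]
            exact hmono h1
          · rw [← ht']
            exact hmono.monotone h2
      rw [← sum_filter, h1, sum_image (fun x _ y _ h => hmono.injective h)]
    have hGs : ∀ s, ∑ c ∈ range (s * n), g c = ∑ u ∈ range s, load m p r n u := by
      intro s
      induction s with
      | zero => simp
      | succ s ih =>
        rw [Nat.succ_mul, sum_range_add, ih, sum_range_succ]
        congr 1
        unfold load
        exact sum_congr rfl fun x hx => hg s x (mem_range.1 hx)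
    have hG2 : ∀ s, ∑ c ∈ range (s * n + i + 1), g c = ∑ u ∈ range s, load m p r n u +
        ∑ x ∈ range (i + 1), if s % m x = r x then p x else 0 := by
      intro s
      rw [Nat.add_assoc, sum_range_add, hGs]
      congr 1
      exact sum_congr rfl fun x hx => hg s x (by have := mem_range.1 hx; omega)
    have hsame : ∑ x ∈ range (i + 1), (if t' % m x = r x then p x else 0) =
        ∑ x ∈ range (i + 1), if t % m x = r x then p x else 0 := by
      refine sum_congr rfl fun x hx => ?_
      have hx' := mem_range.1 hx
      have h1 : m x ∣ t' - t := (hdiv x i (by omega) hi).trans hdd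
      have h2 : t % m x = t' % m x := (Nat.modEq_iff_dvd' htt.le).2 h1
      rw [h2]
    have hIoc : Finset.Ioc (t * n + i) (t' * n + i) =
        Finset.Ico (t * n + i + 1) (t' * n + i + 1) := by
      ext c
      simp only [Finset.mem_Ioc, Finset.mem_Ico]
      omega
    have hfin := sum_range_add_sum_Ico g (show t * n + i + 1 ≤ t' * n + i + 1 by omega)
    rw [hG2 t, hG2 t', hsame] at hfin
    have hfin2 := sum_range_add_sum_Ico (fun u => load m p r n u) htt.le
    have hbd : ∑ u ∈ Finset.Ico t t', load m p r n u ≤ (t' - t) * F := by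
      refine (sum_le_card_nsmul _ _ F fun u _ => hL u).trans ?_
      rw [Nat.card_Ico, smul_eq_mul]
    have hbd2 : (t' - t) * F ≤ m i * F := Nat.mul_le_mul_right _ (by omega)
    change ∑ k ∈ Finset.Ioc a b, p (Nat.nth pr k % n) ≤ m i * F
    rw [hsum, hIoc]
    omega

end Q229.PW
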