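import Pool.Agent.Q229.PW.Defs
import Pool.Agent.Q229.PW.Assign
import Pool.Agent.Q229.PW.Sched

/-!
# The criterion
-/

set_option autoImplicit false

namespace Q229.PW

open Finset

/-- the smallest frequency -/
def F (V : Inst) : ℕ := (V.head?.getD (0, 0)).1

/-- the total duration of the jobs with the smallest frequency -/
def P (V : Inst) : ℕ := (V.map fun x => if x.1 = F V then x.2 else 0).sum

/-- the criterion -/
def Cond (V : Inst) : Prop := ∀ x ∈ V, x.1 ≠ F V → P V + x.2 ≤ F V

theorem sum_fin {β : Type} [AddCommMonoid β] (V : Inst) (h : ℕ × ℕ → β) :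
    (V.map h).sum = ∑ i : Fin V.length, h (V.get i) := by
  rw [← List.sum_ofFn]
  congr 1
  apply List.ext_getElem
  · simp
  · intro i h1 h2
    simp

theorem sum_rg {β : Type} [AddCommMonoid β] (V : Inst) (h : ℕ × ℕ → β) :
    (V.map h).sum = ∑ i ∈ range V.length, h (V.getD i (0, 0)) := by
  rw [sum_fin, ← Fin.sum_univ_eq_sum_range (fun i => h (V.getD i (0, 0))) V.length]
  refine sum_congr rfl fun i _ => ?_
  rw [List.getD_eq_getElem _ _ i.2]
  rfl

theorem F_eq {V : Inst} (h : V ≠ []) : F V = (V.getD 0 (0, 0)).1 := by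
  unfold F
  rcases V with _ | ⟨x, V⟩
  · exact absurd rfl h
  · rfl

/-- an occurrence before and an occurrence after a position -/
theorem exists_around {α : Type} {S : ℕ → α} {i : α} (hinf : (S ⁻¹' {i}).Infinite) {x0 K : ℕ}
    (hK : K < x0) (hS : S K = i) (hx : S x0 ≠ i) :
    ∃ a b, a < x0 ∧ x0 < b ∧ S a = i ∧ S b = i ∧ ∀ t, a < t → t < b → S t ≠ i := by
  classical
  have hb : ∃ b, x0 < b ∧ S b = i := by
    obtain ⟨b, hb, hb'⟩ := hinf.exists_gt x0
    exact ⟨b, hb', hb⟩
  obtain ⟨a, ha1, ha2, ha3⟩ : ∃ a, a < x0 ∧ S a = i ∧ ∀ t, a < t → t < x0 → S t ≠ i := by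
    have hne : ((range x0).filter fun t => S t = i).Nonempty := by
      refine ⟨K, ?_⟩
      rw [mem_filter, mem_range]
      exact ⟨hK, hS⟩
    have h1 := max'_mem _ hne
    rw [mem_filter, mem_range] at h1
    refine ⟨((range x0).filter fun t => S t = i).max' hne, h1.1, h1.2, fun t ht1 ht2 ht3 => ?_⟩
    have h2 : t ∈ (range x0).filter fun t => S t = i := by
      rw [mem_filter, mem_range]
      exact ⟨ht2, ht3⟩
    have := le_max' _ t h2
    omega
  refine ⟨a, Nat.find hb, ha1, (Nat.find_spec hb).1, ha2, (Nat.find_spec hb).2, ?_⟩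
  intro t ht1 ht2 ht3
  rcases lt_trichotomy t x0 with h1 | h1 | h1
  · exact ha3 t ht1 h1 ht3
  · rw [h1] at ht3
    exact hx ht3
  · exact Nat.find_min hb ht2 ⟨h1, ht3⟩

theorem cond_of_feasible {V : Inst} (hV : Valid V) (h : Feasible V) : Cond V := by
  classical
  obtain ⟨S, hS⟩ := h
  intro x hx hxF
  obtain ⟨j, hj⟩ := List.get_of_mem hx
  obtain ⟨L, hL⟩ : ∃ L : Finset (Fin V.length), L = univ.filter fun i => (V.get i).1 = F V :=
    ⟨_, rfl⟩
  have hjL : j ∉ L := by
    rw [hL, mem_filter, hj]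
    exact fun h => hxF h.2
  have hocc : ∀ i : Fin V.length, ∃ k, S k = i := fun i => (hS i).1.nonempty
  choose k hk using hocc
  obtain ⟨x0, hx0, hx0'⟩ := (hS j).1.exists_gt (univ.sup k)
  have hx0S : S x0 = j := hx0
  have haround : ∀ i : Fin V.length, ∃ a b, i ∈ L → a < x0 ∧ x0 < b ∧ S a = i ∧ S b = i ∧
      ∀ t, a < t → t < b → S t ≠ i := by
    intro i
    by_cases hi : i ∈ L
    · obtain ⟨a, b, hab⟩ := exists_around (hS i).1
        (lt_of_le_of_lt (le_sup (f := k) (mem_univ i)) hx0') (hk i)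
        (fun h => hjL (by rw [← hx0S, h]; exact hi))
      exact ⟨a, b, fun _ => hab⟩
    · exact ⟨0, 0, fun h => absurd h hi⟩
  choose A B hAB using haround
  have hne : L.Nonempty := by
    have h0 : 0 < V.length := List.length_pos_iff.2 hV.1
    refine ⟨⟨0, h0⟩, ?_⟩
    rw [hL, mem_filter]
    refine ⟨mem_univ _, ?_⟩
    rw [F_eq hV.1, List.getD_eq_getElem _ _ h0]
    rfl
  obtain ⟨i0, hi0, hmin⟩ := exists_min_image L A hne
  obtain ⟨e1, e2, e3, e4, e5⟩ := hAB i0 hi0
  have hbound := (hS i0).2 (A i0) (B i0) (by omega) e3 e4 e5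
  have hi0F : (V.get i0).1 = F V := by
    rw [hL, mem_filter] at hi0
    exact hi0.2
  rw [hi0F] at hbound
  let c : Fin V.length → ℕ := fun i => if i = i0 then B i0 else A i
  have hcS : ∀ i ∈ L, S (c i) = i := by
    intro i hi
    by_cases h1 : i = i0
    · simp only [c, h1, if_true]
      exact e4
    · simp only [c, h1, if_false]
      exact (hAB i hi).2.2.1
  have hcinj : Set.InjOn c L := by
    intro i hi i' hi' h
    rw [← hcS i hi, ← hcS i' hi', h]
  have hsub : insert x0 (L.image c) ⊆ Finset.Ioc (A i0) (B i0) := by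
    intro t ht
    rw [mem_insert, mem_image] at ht
    rw [Finset.mem_Ioc]
    rcases ht with rfl | ⟨i, hi, rfl⟩
    · exact ⟨e1, e2.le⟩
    · by_cases h1 : i = i0
      · simp only [c, h1, if_true]
        omega
      · simp only [c, h1, if_false]
        obtain ⟨f1, f2, f3, f4, f5⟩ := hAB i hi
        have h2 := hmin i hi
        refine ⟨?_, by omega⟩
        rcases h2.lt_or_eq with h3 | h3
        · exact h3
        · exfalso
          apply h1
          rw [← f3, ← h3, e3]
  have hx0n : x0 ∉ L.image c := by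
    intro h
    rw [mem_image] at h
    obtain ⟨i, hi, h1⟩ := h
    have h2 := hcS i hi
    rw [h1, hx0S] at h2
    exact hjL (h2 ▸ hi)
  have hsum : x.2 + P V ≤ ∑ t ∈ Finset.Ioc (A i0) (B i0), (V.get (S t)).2 := by
    refine le_trans (le_of_eq ?_) (sum_le_sum_of_subset hsub)
    rw [sum_insert hx0n, sum_image hcinj, hx0S, hj]
    congr 1
    unfold P
    rw [sum_fin, hL, sum_filter]
    rw [← sum_filter, ← sum_filter, ← hL]
    exact sum_congr rfl fun i hi => by rw [hcS i hi]
  omega

theorem dvd_of_le {V : Inst} (hd : FrequencyDivisibility V) {i j : ℕ} (hij : i ≤ j)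
    (hj : j < V.length) : (V.getD i (0, 0)).1 ∣ (V.getD j (0, 0)).1 := by
  have h1 : V.Pairwise fun x y => x.1 ∣ y.1 := by
    have : IsTrans (ℕ × ℕ) fun x y => x.1 ∣ y.1 := ⟨fun a b c h h' => h.trans h'⟩
    exact List.isChain_iff_pairwise.1 hd
  rcases hij.lt_or_eq with h | rfl
  · rw [List.getD_eq_getElem _ _ (by omega), List.getD_eq_getElem _ _ hj]
    exact List.pairwise_iff_getElem.1 h1 i j (by omega) hj h
  · exact dvd_rfl

theorem feasible_of_cond {V : Inst} (hV : Valid V) (hd : FrequencyDivisibility V)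
    (hα : density V ≤ 1 / 10) (h : Cond V) : Feasible V := by
  have hn : 0 < V.length := List.length_pos_iff.2 hV.1
  have hpos : ∀ i < V.length, 0 < (V.getD i (0, 0)).1 ∧ 0 < (V.getD i (0, 0)).2 := by
    intro i hi
    rw [List.getD_eq_getElem _ _ hi]
    exact hV.2.1 _ (List.getElem_mem hi)
  have hF : F V = (V.getD 0 (0, 0)).1 := F_eq hV.1
  have hF0 : 0 < F V := by rw [hF]; exact (hpos 0 hn).1
  have hFd : ∀ i < V.length, F V ∣ (V.getD i (0, 0)).1 := by
    intro i hi
    rw [hF]
    exact dvd_of_le hd (Nat.zero_le _) hi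
  have hmul : ∀ i < V.length, (V.getD i (0, 0)).1 / F V * F V = (V.getD i (0, 0)).1 :=
    fun i hi => Nat.div_mul_cancel (hFd i hi)
  have hm : ∀ i < V.length, 0 < (V.getD i (0, 0)).1 / F V := fun i hi =>
    Nat.div_pos (Nat.le_of_dvd (hpos i hi).1 (hFd i hi)) hF0
  have hdiv : ∀ i j, i ≤ j → j < V.length →
      (V.getD i (0, 0)).1 / F V ∣ (V.getD j (0, 0)).1 / F V := fun i j hij hj =>
    Nat.div_dvd_div (hFd i (by omega)) (dvd_of_le hd hij hj)
  have hm0 : (V.getD 0 (0, 0)).1 / F V = 1 := by rw [← hF]; exact Nat.div_self hF0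
  have hone : ∀ i < V.length, ((V.getD i (0, 0)).1 / F V = 1 ↔ (V.getD i (0, 0)).1 = F V) := by
    intro i hi
    have := hmul i hi
    constructor
    · intro h1
      rw [h1, Nat.one_mul] at this
      exact this.symm
    · intro h1
      rw [h1]
      exact Nat.div_self hF0
  obtain ⟨r, hr, hL⟩ := assign V.length (F V) (fun i => (V.getD i (0, 0)).1 / F V)
    (fun i => (V.getD i (0, 0)).2) hF0 hm (fun i hi => (hpos i hi).2) hdiv
    (by
      have h1 : ∑ i ∈ range V.length, ((V.getD i (0, 0)).2 : ℚ) /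
          (((V.getD i (0, 0)).1 / F V : ℕ) : ℚ) = (F V : ℚ) * density V := by
        unfold density
        rw [sum_rg, mul_sum]
        refine sum_congr rfl fun i hi => ?_
        have hi' := mem_range.1 hi
        have e1 : (F V : ℚ) ≠ 0 := by exact_mod_cast hF0.ne'
        rw [Nat.cast_div (hFd i hi') e1]
        field_simp
      have h2 : (0 : ℚ) ≤ F V := Nat.cast_nonneg _
      rw [h1]
      nlinarith)
    (by
      intro k hk hk1
      have h1 : (∑ i ∈ range V.length, if (V.getD i (0, 0)).1 / F V = 1 then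
          (V.getD i (0, 0)).2 else 0) = P V := by
        unfold P
        rw [sum_rg]
        refine sum_congr rfl fun i hi => ?_
        have := hone i (mem_range.1 hi)
        simp only [this]
      rw [h1]
      refine h _ ?_ (fun h2 => hk1 ((hone k hk).2 h2))
      rw [List.getD_eq_getElem _ _ hk]
      exact List.getElem_mem hk)
  obtain ⟨S, hS1, hS2⟩ := exists_schedule hn hm0 hm hdiv hr hL
  refine ⟨fun t => ⟨S t, hS1 t⟩, fun i => ⟨?_, ?_⟩⟩
  · refine Set.infinite_of_forall_exists_gt fun K => ?_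
    obtain ⟨k, hk1, hk2⟩ := (hS2 i i.2).1 (K + 1)
    refine ⟨k, ?_, by omega⟩
    exact Fin.ext hk2
  · intro a b hab ha hb hno
    have h1 := (hS2 i i.2).2 a b hab (congrArg Fin.val ha) (congrArg Fin.val hb)
      (fun t h1 h2 h3 => hno t h1 h2 (Fin.ext h3))
    have h2 : (V.get i).1 = (V.getD i.1 (0, 0)).1 / F V * F V := by
      rw [hmul i.1 i.2, List.getD_eq_getElem _ _ i.2]
      rfl
    rw [h2]
    refine le_trans (le_of_eq (sum_congr rfl fun t _ => ?_)) h1
    rw [List.getD_eq_getElem _ _ (hS1 t)]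
    rfl

theorem feasible_iff {V : Inst} (hV : Valid V) (hd : FrequencyDivisibility V)
    (hα : density V ≤ 1 / 10) : Feasible V ↔ Cond V :=
  ⟨cond_of_feasible hV, feasible_of_cond hV hd hα⟩

end Q229.PW
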