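import Mathlib

/-!
# Greedy assignment of residue classes
-/

set_option autoImplicit false

namespace Q229.PW

open Finset

theorem sum_mod (m q : ℕ) (g : ℕ → ℕ) :
    ∑ c ∈ range (m * q), g (c % m) = q * ∑ c ∈ range m, g c := by
  induction q with
  | zero => simp
  | succ q ih =>
    rw [Nat.mul_succ, sum_range_add, ih, Nat.succ_mul]
    congr 1
    refine sum_congr rfl fun x hx => ?_
    rw [Nat.mul_add_mod, Nat.mod_eq_of_lt (mem_range.1 hx)]

theorem sum_class {m k r w : ℕ} (hm : 0 < m) (hr : r < m) (h : m ∣ k) :
    ∑ c ∈ range k, (if c % m = r then w else 0) = w * (k / m) := by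
  obtain ⟨q, rfl⟩ := h
  rw [sum_mod m q (fun c => if c = r then w else 0), sum_ite_eq' (range m) r,
    if_pos (mem_range.2 hr), Nat.mul_div_cancel_left _ hm, mul_comm]

/-- the load of the bin `t` -/
def load (m w r : ℕ → ℕ) (k t : ℕ) : ℕ := ∑ i ∈ range k, if t % m i = r i then w i else 0

theorem pack (m w : ℕ → ℕ) (M K z : ℕ) (Z : ℕ → Prop) [DecidablePred Z] (hM : 0 < M)
    (hz : ∑ c ∈ range M, (if Z c then 1 else 0) = z) (n : ℕ)
    (hdiv : ∀ i j, i ≤ j → j < n → w i ≠ 0 → w j ≠ 0 → m i ∣ m j)
    (hMm : ∀ i < n, w i ≠ 0 → M ∣ m i) (hm : ∀ i < n, w i ≠ 0 → 0 < m i)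
    (hlt : ∀ k < n, w k ≠ 0 →
      ∑ i ∈ range k, w i * (m k / m i) < (K + 1 - w k) * (z * (m k / M))) :
    ∀ k ≤ n, ∃ r : ℕ → ℕ, (∀ i < k, w i ≠ 0 → r i < m i ∧ Z (r i % M)) ∧
      ∀ t, load m w r k t ≤ K := by
  intro k
  induction k with
  | zero => exact fun _ => ⟨fun _ => 0, fun i hi => absurd hi (by omega), fun t => by simp [load]⟩
  | succ k ih =>
    intro hk
    obtain ⟨r, hr, hK⟩ := ih (by omega)
    by_cases hw : w k = 0
    · refine ⟨r, ?_, ?_⟩
      · intro i hi hwi
        rcases Nat.lt_or_ge i k with h1 | h1
        · exact hr i h1 hwi
        · exact absurd (by rw [show i = k by omega]; exact hw) hwi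
      · intro t
        unfold load
        rw [sum_range_succ, hw]
        simpa [load] using hK t
    · have hex : ∃ c < m k, Z (c % M) ∧ load m w r k c + w k ≤ K := by
        by_contra hcon
        push Not at hcon
        have h1 : (K + 1 - w k) * (z * (m k / M)) ≤ ∑ c ∈ range (m k), load m w r k c := by
          obtain ⟨q, hq⟩ := hMm k (by omega) hw
          have h2 : ∑ c ∈ range (m k), (if Z (c % M) then (K + 1 - w k) else 0) =
              (K + 1 - w k) * (z * (m k / M)) := by
            rw [hq, sum_mod M q (fun c => if Z c then (K + 1 - w k) else 0),
              Nat.mul_div_cancel_left _ hM, ← hz]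
            have : ∑ c ∈ range M, (if Z c then (K + 1 - w k) else 0) =
                (K + 1 - w k) * ∑ c ∈ range M, (if Z c then 1 else 0) := by
              rw [mul_sum]
              refine sum_congr rfl fun c _ => ?_
              split_ifs <;> simp
            rw [this]
            ring
          rw [← h2]
          refine sum_le_sum fun c hc => ?_
          split_ifs with h3
          · have := hcon c (mem_range.1 hc) h3
            omega
          · exact Nat.zero_le _
        have h2 : ∑ c ∈ range (m k), load m w r k c = ∑ i ∈ range k, w i * (m k / m i) := by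
          unfold load
          rw [sum_comm]
          refine sum_congr rfl fun i hi => ?_
          have hi' := mem_range.1 hi
          by_cases hwi : w i = 0
          · rw [hwi]
            simp
          · exact sum_class (hm i (by omega) hwi) (hr i hi' hwi).1
              (hdiv i k (by omega) (by omega) hwi hw)
        exact absurd (hlt k (by omega) hw) (by rw [← h2]; omega)
      obtain ⟨c, hc, hZ, hcK⟩ := hex
      refine ⟨fun i => if i = k then c else r i, ?_, ?_⟩
      · intro i hi hwi
        by_cases h1 : i = k
        · subst h1
          simp only [if_true]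
          exact ⟨hc, hZ⟩
        · simp only [h1, if_false]
          exact hr i (by omega) hwi
      · intro t
        have h1 : load m w (fun i => if i = k then c else r i) k t = load m w r k t := by
          unfold load
          refine sum_congr rfl fun i hi => ?_
          have : i ≠ k := by have := mem_range.1 hi; omega
          simp only [this, if_false]
        have h2 : load m w (fun i => if i = k then c else r i) (k + 1) t =
            load m w r k t + if t % m k = c then w k else 0 := by
          rw [← h1]
          unfold load
          rw [sum_range_succ]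
          simp
        rw [h2]
        split_ifs with h3
        · have h4 : load m w r k t = load m w r k c := by
            unfold load
            refine sum_congr rfl fun i hi => ?_
            have hi' := mem_range.1 hi
            by_cases hwi : w i = 0
            · rw [hwi]
              simp
            · have h5 := hdiv i k (by omega) (by omega) hwi hw
              have h6 : t % m i = c % m i := by
                rw [← h3, Nat.mod_mod_of_dvd _ h5]
              rw [h6]
          rw [h4]
          exact hcK
        · simpa using hK t

end Q229.PW
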